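import Pool.Agent.Helper75.FU.StP

set_option autoImplicit false

namespace Pool.Agent.Helper60.FU

open Polynomial Pool.Agent.Helper91.GU Pool.Agent.Helper75.FU

universe u

theorem hP3 (hP1 : StP1.{u}) (hP2 : StP2.{u}) : StP3.{u} := by
  intro C _ _ n _ _ γ γ' hγ hm
  obtain ⟨y, -, z0, hadd, -, hmul, -, hC, -⟩ := hP1 C
  have h2 := hP2 C n γ γ' hγ hm
  let φ : C →+* RX C := (toRX C).comp (Polynomial.C : C →+* C[X])
  let I : Ideal C[X] := (IsLocalRing.maximalIdeal C).map (Polynomial.C)
  let Good : (n → RX C) → Prop := fun x => ∃ (a : n → C[X]) (σ : n → RX C),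
    (∀ j, a j ∈ I) ∧ (∀ j, σ j ∈ Sg C 0 0) ∧
      x = (fun j => toRX C (a j)) + Matrix.vecMul σ γ'
  have gadd : ∀ x x', Good x → Good x' → Good (x + x') := by
    rintro x x' ⟨a, σ, h1, h3, rfl⟩ ⟨a', σ', h1', h3', rfl⟩
    refine ⟨a + a', σ + σ', fun j => I.add_mem (h1 j) (h1' j),
      fun j => hadd 0 0 _ (h3 j) _ (h3' j), ?_⟩
    rw [Matrix.add_vecMul]
    ext j
    simp only [Pi.add_apply, map_add]
    ring
  have gzero : Good 0 := by
    refine ⟨0, 0, fun j => I.zero_mem, fun j => z0 0 0, ?_⟩
    rw [Matrix.zero_vecMul]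
    ext j
    simp
  have gmul : ∀ μ ∈ IsLocalRing.maximalIdeal C, ∀ x, Good (φ μ • x) := by
    intro μ hμ x
    obtain ⟨a, σ, h3, rfl⟩ := h2 x
    refine ⟨fun j => Polynomial.C μ * a j, φ μ • σ,
      fun j => I.mul_mem_right _ (Ideal.mem_map_of_mem _ hμ), fun j => ?_, ?_⟩
    · have := hmul 0 0 0 0 _ (hC μ) _ (h3 j)
      simpa [φ] using this
    · rw [Matrix.smul_vecMul]
      ext j
      simp only [Pi.add_apply, Pi.smul_apply, smul_eq_mul, map_mul, φ, RingHom.comp_apply]
      ring
  have gsing : ∀ (j : n) (w : RX C), w ∈ mRX C → ∀ d : RX C, Good (Pi.single j (d * w)) := by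
    intro j w hw
    have hw' : w ∈ Submodule.span (RX C) (φ '' (IsLocalRing.maximalIdeal C : Set C)) := hw
    refine Submodule.span_induction
      (p := fun w _ => ∀ d : RX C, Good (Pi.single j (d * w))) ?_ ?_ ?_ ?_ hw'
    · rintro w ⟨μ, hμ, rfl⟩ d
      have h := gmul μ hμ (Pi.single j d)
      have e : φ μ • (Pi.single j d : n → RX C) = Pi.single j (d * φ μ) := by
        rw [← Pi.single_smul, smul_eq_mul, mul_comm]
      rw [← e]
      exact h
    · intro d
      rw [mul_zero, Pi.single_zero]
      exact gzero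
    · intro w w' _ _ h h' d
      rw [mul_add, Pi.single_add]
      exact gadd _ _ (h d) (h' d)
    · intro e w _ h d
      rw [smul_eq_mul, ← mul_assoc]
      exact h (d * e)
  have gall : ∀ x : n → RX C, (∀ j, x j ∈ mRX C) → Good x := by
    intro x hx
    have e : x = ∑ j, Pi.single j (x j) := (Finset.univ_sum_single x).symm
    rw [e]
    refine Finset.sum_induction _ Good gadd gzero fun j _ => ?_
    have := gsing j (x j) (hx j) 1
    rwa [one_mul] at this
  have hrow : ∀ i, Good (fun j => (1 : Matrix n n (RX C)) i j - γ' i j) := by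
    intro i
    refine gall _ fun j => ?_
    have := (mRX C).neg_mem (hm i j)
    rwa [neg_sub] at this
  choose a σ ha hσ he using hrow
  refine ⟨Matrix.of fun i j => (1 : Matrix n n C[X]) i j - a i j,
    Matrix.of fun i j => (1 : Matrix n n (RX C)) i j + σ i j, ?_, ?_, ?_⟩
  · intro i j
    refine hadd 0 0 _ ?_ _ (hσ i j)
    by_cases h : i = j
    · subst h
      rw [Matrix.one_apply_eq]
      simpa using hC 1
    · rw [Matrix.one_apply_ne h]
      exact z0 0 0
  · ext i j
    have h := congrFun (he i) j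
    simp only [Pi.add_apply] at h
    have e1 : ((Matrix.of fun i j => (1 : Matrix n n (RX C)) i j + σ i j) * γ') i j
        = γ' i j + Matrix.vecMul (σ i) γ' j := by
      rw [Matrix.mul_apply]
      simp only [Matrix.of_apply, add_mul, Finset.sum_add_distrib]
      congr 1
      have := congrFun (congrFun (Matrix.one_mul γ') i) j
      rw [Matrix.mul_apply] at this
      exact this
    rw [e1, Matrix.map_apply, Matrix.of_apply, map_sub]
    have e2 : toRX C ((1 : Matrix n n C[X]) i j) = (1 : Matrix n n (RX C)) i j := by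
      by_cases h : i = j
      · subst h
        rw [Matrix.one_apply_eq, Matrix.one_apply_eq, map_one]
      · rw [Matrix.one_apply_ne h, Matrix.one_apply_ne h, map_zero]
    rw [e2]
    linear_combination h
  · intro i j
    rw [Matrix.of_apply, sub_sub_cancel_left]
    exact I.neg_mem (ha i j)

end Pool.Agent.Helper60.FU
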